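import Pool.Agent.K4H37.DM.Ident
import Pool.Agent.R761.PosId.Step
import Pool.Agent.R761.PosId.SemN
import Pool.Agent.R761.PosId.Trans
import Pool.Agent.R761.PosId.Merge
import Pool.Agent.R761.PosId.Norm
import Pool.Agent.R761.PosId.IndU

/-!
# MP_88c4e5_co: the complete answer to Q1

* There is no nontrivial lattice identity that holds in `DM(H, B)` for all central arrangements `H`
  in all dimensions.
* For a fixed dimension `d ≥ 1` there is a nontrivial lattice identity that holds in `DM(H, B)` for
  all central arrangements `H` in `ℝ^d` and all base regions `B` if and only if `d ≤ 3`.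
* For `d ≤ 3` the following identity in six variables does it:
  `x ∧ (y₀ ∨ … ∨ y₄) = ⋁ᵢ (x ∧ (z ∨ ⋁ (y j : j ≠ i)))`, where `z = (x ∧ y₀) ∨ … ∨ (x ∧ y₄)`.

New is the case `d = 3` (with `d = 1, 2`); the failure of all identities for `d ≥ 4` is the starting
result `FixedDimension` of this problem, whose proof is used here.
-/

set_option autoImplicit false

open Pool.Agent.H178R3 Pool.Agent.H178R3.CentralArrangement R761.BipLat R761.PosId
open Pool.Agent.K4H37.DM

namespace Pool.Agent.Results.MP_88c4e5_co.DimensionThree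

universe u

/-- The lattice identity `s = t` is nontrivial: it fails in some lattice. -/
def NontrivialIdentity (s t : LTerm) : Prop :=
  ∃ (L : Type u) (_ : Lattice L) (v : ℕ → L), s.eval v ≠ t.eval v

/-- The lattice identity `s = t` holds in `DM(H, B)` for every central arrangement `H` in `ℝ^d` and
every base region `B`. -/
def HoldsInDimension (d : ℕ) (s t : LTerm) : Prop :=
  ∀ (A : CentralArrangement d) (B : A.Region) (v : ℕ → DedekindCut (Pos A B)),
    s.eval v = t.eval v

/-- In dimension at least four every nontrivial identity fails (starting result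
`FixedDimension`). -/
theorem fails_of_four_le {d : ℕ} (hd : 4 ≤ d) {s t : LTerm} (h : NontrivialIdentity.{u} s t) :
    ¬ HoldsInDimension d s t := by
  obtain ⟨n, rfl⟩ : ∃ n, d = n + 4 := ⟨d - 4, by omega⟩
  obtain ⟨L, iL, v, hv⟩ := h
  have key : ∀ s t : LTerm, ¬ s.eval v ≤ t.eval v →
      ∃ (A : CentralArrangement (n + 4)) (B : A.Region) (v : ℕ → DedekindCut (Pos A B)),
        ¬ s.eval v ≤ t.eval v := by
    intro s t h
    obtain ⟨S⟩ := indU (step trans merge (norm trans)) L v s t h
    exact semN n S.P S.Fs s t S.q S.gen (S.dvb S.q S.hq S.qb) (S.dvc S.q S.hq S.qc)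
  intro hH
  by_cases h : s.eval v ≤ t.eval v
  · obtain ⟨A, B, v', h'⟩ := key t s fun h' => hv (le_antisymm h h')
    exact h' (hH A B v').ge
  · obtain ⟨A, B, v', h'⟩ := key s t h
    exact h' (hH A B v').le

/-- **The complete answer to Q1.** -/
theorem result :
    (¬ ∃ s t : LTerm, NontrivialIdentity.{u} s t ∧ ∀ d : ℕ, 1 ≤ d → HoldsInDimension d s t) ∧
    (∀ d : ℕ, 1 ≤ d →
      ((∃ s t : LTerm, NontrivialIdentity.{u} s t ∧ HoldsInDimension d s t) ↔ d ≤ 3)) ∧
    NontrivialIdentity.{u} leftSide rightSide ∧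
    ∀ d : ℕ, 1 ≤ d → (HoldsInDimension d leftSide rightSide ↔ d ≤ 3) := by
  have hnt : NontrivialIdentity.{u} leftSide rightSide := ⟨_, inferInstance, failV, fail⟩
  have hno : ∀ d : ℕ, ∀ s t : LTerm, NontrivialIdentity.{u} s t → HoldsInDimension d s t →
      d ≤ 3 := by
    intro d s t h1 h2
    by_contra hcon
    exact fails_of_four_le (by omega) h1 h2
  refine ⟨?_, ?_, hnt, ?_⟩
  · rintro ⟨s, t, h1, h2⟩
    have := hno 4 s t h1 (h2 4 (by omega))
    omega
  · intro d _
    constructor
    · rintro ⟨s, t, h1, h2⟩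
      exact hno d s t h1 h2
    · intro hd
      exact ⟨leftSide, rightSide, hnt, fun A B v => holds hd v⟩
  · intro d _
    exact ⟨fun h => hno d leftSide rightSide hnt h, fun hd A B v => holds hd v⟩

end Pool.Agent.Results.MP_88c4e5_co.DimensionThree
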